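import Mathlib

/-!
# Perron's algorithm for an arbitrary linearly ordered free abelian group

`Λ` is a linearly ordered abelian group, free of rank `r`. For every finite set of positive elements
there is a basis consisting of positive elements in which all of them have non-negative coordinates.
-/

set_option autoImplicit false
set_option linter.unusedSectionVars false

namespace Pool.Agent.LUA

variable {Λ : Type*} [AddCommGroup Λ] [LinearOrder Λ] [IsOrderedAddMonoid Λ] {r : ℕ}

/-- The transvection `c ↦ c - c i • e_j`. -/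
def trv (i j : Fin r) (hij : i ≠ j) : (Fin r → ℤ) ≃ₗ[ℤ] (Fin r → ℤ) where
  toFun c := c - c i • Pi.single j 1
  invFun c := c + c i • Pi.single j 1
  map_add' c d := by
    ext l
    simp only [Pi.sub_apply, Pi.add_apply, Pi.smul_apply, smul_eq_mul]
    ring
  map_smul' a c := by
    ext l
    simp only [Pi.sub_apply, Pi.smul_apply, smul_eq_mul, RingHom.id_apply]
    ring
  left_inv c := by
    ext l
    simp only [Pi.sub_apply, Pi.add_apply, Pi.smul_apply, smul_eq_mul,
      Pi.single_eq_of_ne hij]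
    ring
  right_inv c := by
    ext l
    simp only [Pi.sub_apply, Pi.add_apply, Pi.smul_apply, smul_eq_mul,
      Pi.single_eq_of_ne hij]
    ring

/-- The elements of the basis given by `φ` are positive. -/
def PosB (φ : (Fin r → ℤ) ≃ₗ[ℤ] Λ) : Prop := ∀ i, 0 < φ (Pi.single i 1)

/-- The coordinates of `g` are non-negative. -/
def NN (φ : (Fin r → ℤ) ≃ₗ[ℤ] Λ) (g : Λ) : Prop := ∀ i, 0 ≤ φ.symm g i

/-- One step: `e_i` is replaced by `e_i - e_j`. -/
def stp (φ : (Fin r → ℤ) ≃ₗ[ℤ] Λ) (i j : Fin r) (hij : i ≠ j) : (Fin r → ℤ) ≃ₗ[ℤ] Λ :=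
  (trv i j hij).trans φ

theorem stp_symm (φ : (Fin r → ℤ) ≃ₗ[ℤ] Λ) (i j : Fin r) (hij : i ≠ j) (g : Λ) :
    (stp φ i j hij).symm g = φ.symm g + φ.symm g i • Pi.single j 1 := rfl

theorem stp_single (φ : (Fin r → ℤ) ≃ₗ[ℤ] Λ) (i j : Fin r) (hij : i ≠ j) :
    stp φ i j hij (Pi.single i 1) = φ (Pi.single i 1) - φ (Pi.single j 1) := by
  have h : trv i j hij (Pi.single i 1) = Pi.single i 1 - Pi.single j 1 := by
    change (Pi.single i 1 : Fin r → ℤ) - (Pi.single i 1 : Fin r → ℤ) i • Pi.single j 1 = _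
    rw [Pi.single_eq_same, one_smul]
  change φ (trv i j hij (Pi.single i 1)) = _
  rw [h, map_sub]

theorem stp_single' (φ : (Fin r → ℤ) ≃ₗ[ℤ] Λ) (i j : Fin r) (hij : i ≠ j) {l : Fin r}
    (hl : l ≠ i) : stp φ i j hij (Pi.single l 1) = φ (Pi.single l 1) := by
  have h : trv i j hij (Pi.single l 1) = Pi.single l 1 := by
    change (Pi.single l 1 : Fin r → ℤ) - (Pi.single l 1 : Fin r → ℤ) i • Pi.single j 1 = _
    rw [Pi.single_eq_of_ne hl.symm, zero_smul, sub_zero]
  change φ (trv i j hij (Pi.single l 1)) = _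
  rw [h]

theorem PosB.stp {φ : (Fin r → ℤ) ≃ₗ[ℤ] Λ} (h : PosB φ) {i j : Fin r} (hij : i ≠ j)
    (hlt : φ (Pi.single j 1) < φ (Pi.single i 1)) : PosB (stp φ i j hij) := by
  intro l
  by_cases hl : l = i
  · subst hl
    rw [stp_single]
    exact sub_pos.2 hlt
  · rw [stp_single' φ i j hij hl]
    exact h l

theorem NN.stp {φ : (Fin r → ℤ) ≃ₗ[ℤ] Λ} {g : Λ} (h : NN φ g) {i j : Fin r} (hij : i ≠ j) :
    NN (stp φ i j hij) g := by
  intro l
  rw [stp_symm]
  simp only [Pi.add_apply, Pi.smul_apply, smul_eq_mul]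
  have h1 : (0 : ℤ) ≤ (Pi.single j 1 : Fin r → ℤ) l := by
    by_cases hl : l = j
    · subst hl; simp
    · simp [Pi.single_eq_of_ne hl]
  exact add_nonneg (h l) (mul_nonneg (h i) h1)

theorem eq_sum (φ : (Fin r → ℤ) ≃ₗ[ℤ] Λ) (g : Λ) :
    g = ∑ i, φ.symm g i • φ (Pi.single i 1) := by
  have h : φ.symm g = ∑ i, φ.symm g i • (Pi.single i 1 : Fin r → ℤ) := by
    ext l
    simp [Finset.sum_apply, Pi.single_apply]
  calc g = φ (φ.symm g) := (φ.apply_symm_apply g).symm
    _ = φ (∑ i, φ.symm g i • (Pi.single i 1 : Fin r → ℤ)) := by rw [← h]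
    _ = _ := by rw [map_sum]; exact Finset.sum_congr rfl fun i _ => map_smul _ _ _

/-- If `g > 0` and the basis is positive then some coordinate is positive. -/
theorem exists_pos {φ : (Fin r → ℤ) ≃ₗ[ℤ] Λ} (h : PosB φ) {g : Λ} (hg : 0 < g) :
    ∃ i, 0 < φ.symm g i := by
  by_contra hc
  push Not at hc
  have h1 : g ≤ 0 := by
    rw [eq_sum φ g]
    refine Finset.sum_nonpos fun i _ => ?_
    exact smul_nonpos_of_nonpos_of_nonneg (hc i) (h i).le
  exact absurd hg (not_lt.2 h1)

/-- The number of coordinates equal to `a` or to `-b`. -/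
def cnt (φ : (Fin r → ℤ) ≃ₗ[ℤ] Λ) (g : Λ) (a b : ℕ) : ℕ :=
  (Finset.univ.filter fun i => φ.symm g i = (a : ℤ)).card +
    (Finset.univ.filter fun i => φ.symm g i = -(b : ℤ)).card

theorem loop {g : Λ} (hg : 0 < g) : ∀ (N K a b : ℕ) (φ : (Fin r → ℤ) ≃ₗ[ℤ] Λ), a + b = N →
    cnt φ g a b = K → PosB φ → (∀ i, φ.symm g i ≤ a) → (∀ i, -(b : ℤ) ≤ φ.symm g i) →
    ∃ φ' : (Fin r → ℤ) ≃ₗ[ℤ] Λ, PosB φ' ∧ NN φ' g ∧ ∀ h, NN φ h → NN φ' h := by
  intro N
  induction N using Nat.strong_induction_on with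
  | _ N ihN =>
  intro K
  induction K using Nat.strong_induction_on with
  | _ K ihK =>
  intro a b φ hN hK hp ha hb
  obtain ⟨i₀, hi₀⟩ := exists_pos hp hg
  have ha0 : 0 < a := by
    have := ha i₀
    omega
  rcases Nat.eq_zero_or_pos b with rfl | hb0
  · refine ⟨φ, hp, fun i => ?_, fun h hh => hh⟩
    simpa using hb i
  by_cases hia : ∃ i, φ.symm g i = a
  swap
  · push Not at hia
    exact ihN (a - 1 + b) (by omega) _ (a - 1) b φ rfl rfl hp
      (fun i => by have h1 := ha i; have h2 := hia i; omega) hb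
  by_cases hjb : ∃ j, φ.symm g j = -(b : ℤ)
  swap
  · push Not at hjb
    exact ihN (a + (b - 1)) (by omega) _ a (b - 1) φ rfl rfl hp ha
      (fun i => by have h1 := hb i; have h2 := hjb i; omega)
  obtain ⟨i, hi⟩ := hia
  obtain ⟨j, hj⟩ := hjb
  have hij : i ≠ j := by
    rintro rfl
    omega
  have hne : φ (Pi.single i 1) ≠ φ (Pi.single j 1) := by
    intro h
    have h1 := φ.injective h
    have h2 := congrFun h1 i
    rw [Pi.single_eq_same, Pi.single_eq_of_ne hij] at h2
    exact one_ne_zero h2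
  rcases lt_or_gt_of_ne hne with hlt | hlt
  · -- `e_i < e_j`: `e_j` is replaced, coordinate `i` becomes `a - b`
    have hc : ∀ l, (stp φ j i hij.symm).symm g l = if l = i then (a : ℤ) - b else φ.symm g l := by
      intro l
      rw [stp_symm]
      simp only [Pi.add_apply, Pi.smul_apply, smul_eq_mul, hj]
      by_cases hl : l = i
      · subst hl
        rw [if_pos rfl, Pi.single_eq_same, hi]
        ring
      · rw [if_neg hl, Pi.single_eq_of_ne hl, mul_zero, add_zero]
    have hlt' : cnt (stp φ j i hij.symm) g a b < K := by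
      rw [← hK]
      unfold cnt
      have h1 : (Finset.univ.filter fun l => (stp φ j i hij.symm).symm g l = (a : ℤ)).card <
          (Finset.univ.filter fun l => φ.symm g l = (a : ℤ)).card := by
        apply Finset.card_lt_card
        rw [Finset.ssubset_iff_of_subset]
        · refine ⟨i, by simp [hi], ?_⟩
          simp only [Finset.mem_filter, Finset.mem_univ, true_and, hc, if_true]
          omega
        · intro l hl
          simp only [Finset.mem_filter, Finset.mem_univ, true_and, hc] at hl ⊢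
          split_ifs at hl with h
          · omega
          · exact hl
      have h2 : (Finset.univ.filter fun l => (stp φ j i hij.symm).symm g l = -(b : ℤ)).card ≤
          (Finset.univ.filter fun l => φ.symm g l = -(b : ℤ)).card := by
        apply Finset.card_le_card
        intro l hl
        simp only [Finset.mem_filter, Finset.mem_univ, true_and, hc] at hl ⊢
        split_ifs at hl with h
        · omega
        · exact hl
      omega
    obtain ⟨φ', h1, h2, h3⟩ := ihK _ hlt' a b (stp φ j i hij.symm) hN rfl (hp.stp hij.symm hlt)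
      (fun l => by rw [hc]; split_ifs; · omega
                   · exact ha l)
      (fun l => by rw [hc]; split_ifs; · omega
                   · exact hb l)
    exact ⟨φ', h1, h2, fun h hh => h3 h (hh.stp hij.symm)⟩
  · have hc : ∀ l, (stp φ i j hij).symm g l = if l = j then (a : ℤ) - b else φ.symm g l := by
      intro l
      rw [stp_symm]
      simp only [Pi.add_apply, Pi.smul_apply, smul_eq_mul, hi]
      by_cases hl : l = j
      · subst hl
        rw [if_pos rfl, Pi.single_eq_same, hj]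
        ring
      · rw [if_neg hl, Pi.single_eq_of_ne hl, mul_zero, add_zero]
    have hlt' : cnt (stp φ i j hij) g a b < K := by
      rw [← hK]
      unfold cnt
      have h1 : (Finset.univ.filter fun l => (stp φ i j hij).symm g l = -(b : ℤ)).card <
          (Finset.univ.filter fun l => φ.symm g l = -(b : ℤ)).card := by
        apply Finset.card_lt_card
        rw [Finset.ssubset_iff_of_subset]
        · refine ⟨j, by simp [hj], ?_⟩
          simp only [Finset.mem_filter, Finset.mem_univ, true_and, hc, if_true]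
          omega
        · intro l hl
          simp only [Finset.mem_filter, Finset.mem_univ, true_and, hc] at hl ⊢
          split_ifs at hl with h
          · omega
          · exact hl
      have h2 : (Finset.univ.filter fun l => (stp φ i j hij).symm g l = (a : ℤ)).card ≤
          (Finset.univ.filter fun l => φ.symm g l = (a : ℤ)).card := by
        apply Finset.card_le_card
        intro l hl
        simp only [Finset.mem_filter, Finset.mem_univ, true_and, hc] at hl ⊢
        split_ifs at hl with h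
        · omega
        · exact hl
      omega
    obtain ⟨φ', h1, h2, h3⟩ := ihK _ hlt' a b (stp φ i j hij) hN rfl (hp.stp hij hlt)
      (fun l => by rw [hc]; split_ifs; · omega
                   · exact ha l)
      (fun l => by rw [hc]; split_ifs; · omega
                   · exact hb l)
    exact ⟨φ', h1, h2, fun h hh => h3 h (hh.stp hij)⟩

theorem perron_one (φ : (Fin r → ℤ) ≃ₗ[ℤ] Λ) (hp : PosB φ) {g : Λ} (hg : 0 < g) :
    ∃ φ' : (Fin r → ℤ) ≃ₗ[ℤ] Λ, PosB φ' ∧ NN φ' g ∧ ∀ h, NN φ h → NN φ' h := by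
  have h1 : ∀ i, |φ.symm g i| ≤ ∑ l, |φ.symm g l| := fun i =>
    Finset.single_le_sum (f := fun l => |φ.symm g l|) (fun _ _ => abs_nonneg _)
      (Finset.mem_univ i)
  have h2 : ((∑ l, |φ.symm g l|).toNat : ℤ) = ∑ l, |φ.symm g l| :=
    Int.toNat_of_nonneg (Finset.sum_nonneg fun _ _ => abs_nonneg _)
  refine loop hg _ _ (∑ l, |φ.symm g l|).toNat (∑ l, |φ.symm g l|).toNat φ rfl rfl hp ?_ ?_
  · intro i
    rw [h2]
    exact (le_abs_self _).trans (h1 i)
  · intro i
    rw [h2]
    have := (abs_le.1 (h1 i)).1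
    exact this

/-- Perron for a positive basis. -/
theorem perron_pos (φ : (Fin r → ℤ) ≃ₗ[ℤ] Λ) (hp : PosB φ) (S : Finset Λ)
    (hS : ∀ g ∈ S, 0 < g) :
    ∃ φ' : (Fin r → ℤ) ≃ₗ[ℤ] Λ, PosB φ' ∧ (∀ g ∈ S, NN φ' g) ∧ ∀ h, NN φ h → NN φ' h := by
  classical
  induction S using Finset.induction_on with
  | empty => exact ⟨φ, hp, by simp, fun h hh => hh⟩
  | insert g S hgS ih =>
    obtain ⟨φ₁, h1, h2, h3⟩ := ih fun g hg => hS g (Finset.mem_insert_of_mem hg)
    obtain ⟨φ₂, h4, h5, h6⟩ := perron_one φ₁ h1 (hS g (Finset.mem_insert_self _ _))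
    refine ⟨φ₂, h4, ?_, fun h hh => h6 h (h3 h hh)⟩
    intro g' hg'
    rcases Finset.mem_insert.1 hg' with rfl | hg'
    · exact h5
    · exact h6 _ (h2 _ hg')

/-- Change of signs. -/
theorem exists_posB (φ : (Fin r → ℤ) ≃ₗ[ℤ] Λ) : ∃ φ' : (Fin r → ℤ) ≃ₗ[ℤ] Λ, PosB φ' := by
  classical
  let s : Fin r → ℤˣ := fun i => if 0 < φ (Pi.single i 1) then 1 else -1
  let σ : (Fin r → ℤ) ≃ₗ[ℤ] (Fin r → ℤ) := LinearEquiv.piCongrRight fun i =>
    LinearEquiv.smulOfUnit (s i)
  refine ⟨σ.trans φ, fun i => ?_⟩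
  have h1 : σ (Pi.single i 1) = ((s i : ℤˣ) : ℤ) • (Pi.single i 1 : Fin r → ℤ) := by
    ext l
    change (s l) • (Pi.single i 1 : Fin r → ℤ) l = ((s i : ℤˣ) : ℤ) * (Pi.single i 1 : Fin r → ℤ) l
    by_cases hl : l = i
    · subst hl
      simp [Units.smul_def]
    · simp [Pi.single_eq_of_ne hl]
  rw [LinearEquiv.trans_apply, h1, map_smul]
  have h0 : φ (Pi.single i 1) ≠ 0 := by
    intro h
    have h2 := φ.injective (h.trans (map_zero φ).symm)
    have h3 := congrFun h2 i
    rw [Pi.single_eq_same] at h3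
    exact one_ne_zero h3
  by_cases hi : 0 < φ (Pi.single i 1)
  · have : s i = 1 := if_pos hi
    rw [this]
    simpa using hi
  · have : s i = -1 := if_neg hi
    rw [this]
    simp only [Units.val_neg, Units.val_one, neg_smul, one_smul]
    exact neg_pos.2 (lt_of_le_of_ne (not_lt.1 hi) h0)

/-- Perron's algorithm: for every finite set `S` of positive elements of a free linearly ordered
abelian group of rank `r` there is a basis of positive elements in which the elements of `S` have
non-negative coordinates. -/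
theorem perron (φ : (Fin r → ℤ) ≃ₗ[ℤ] Λ) (S : Finset Λ) (hS : ∀ g ∈ S, 0 < g) :
    ∃ φ' : (Fin r → ℤ) ≃ₗ[ℤ] Λ, PosB φ' ∧ ∀ g ∈ S, NN φ' g := by
  obtain ⟨φ₁, h1⟩ := exists_posB φ
  obtain ⟨φ₂, h2, h3, -⟩ := perron_pos φ₁ h1 S hS
  exact ⟨φ₂, h2, h3⟩

end Pool.Agent.LUA
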