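import Mathlib

/-!
# The `p`-basis property of a subring of a field

`PB p m T`: every element of `T` is `∑ μ, m μ * c μ ^ p` with `c μ ∈ T`.  A noetherian domain with
this property is normal; the property passes to localisations and to composita.
-/

set_option autoImplicit false
set_option linter.unusedSectionVars false
set_option linter.unusedVariables false

namespace Pool.Agent.LUA

variable {k Ω : Type*} [Field k] [Field Ω] [Algebra k Ω]

/-- The `p`-basis property of the subring `T` with respect to the family `m`. -/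
structure PB (p : ℕ) {ι : Type*} [Fintype ι] (m : ι → Ω) (T : Subalgebra k Ω) : Prop where
  mem : ∀ μ, m μ ∈ T
  gen : ∀ t ∈ T, ∃ c : ι → Ω, (∀ μ, c μ ∈ T) ∧ t = ∑ μ, m μ * c μ ^ p

/-- `m` is independent over the `p`-th powers of the fractions of `T`. -/
def PInd (p : ℕ) {ι : Type*} [Fintype ι] (m : ι → Ω) (T : Subalgebra k Ω) : Prop :=
  ∀ c : ι → Ω, (∀ μ, ∃ a ∈ T, ∃ b ∈ T, b ≠ 0 ∧ c μ = a / b) → ∑ μ, m μ * c μ ^ p = 0 →
    ∀ μ, c μ = 0

section

variable {p : ℕ} {ι : Type*} [Fintype ι] {m : ι → Ω}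

/-- The combinations `∑ μ, m μ * c μ ^ p` with `c μ ∈ T`. -/
def InQ (p : ℕ) {ι : Type*} [Fintype ι] (m : ι → Ω) (T : Subalgebra k Ω) (t : Ω) : Prop :=
  ∃ c : ι → Ω, (∀ μ, c μ ∈ T) ∧ t = ∑ μ, m μ * c μ ^ p

section InQ

variable [hp : Fact p.Prime] [CharP Ω p] {T : Subalgebra k Ω}

theorem InQ.add {a b : Ω} (ha : InQ p m T a) (hb : InQ p m T b) : InQ p m T (a + b) := by
  obtain ⟨c, hc, rfl⟩ := ha
  obtain ⟨d, hd, rfl⟩ := hb
  refine ⟨fun μ => c μ + d μ, fun μ => T.add_mem (hc μ) (hd μ), ?_⟩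
  rw [← Finset.sum_add_distrib]
  exact Finset.sum_congr rfl fun μ _ => by rw [add_pow_char]; ring

theorem InQ.zero : InQ p m T (0 : Ω) := by
  refine ⟨fun _ => 0, fun μ => T.zero_mem, ?_⟩
  rw [Finset.sum_eq_zero]
  intro μ _
  rw [zero_pow hp.out.ne_zero, mul_zero]

theorem InQ.sum {κ : Type*} (s : Finset κ) (f : κ → Ω) (h : ∀ i ∈ s, InQ p m T (f i)) :
    InQ p m T (∑ i ∈ s, f i) := by
  classical
  induction s using Finset.induction_on with
  | empty => rw [Finset.sum_empty]; exact InQ.zero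
  | insert i s hi ih =>
    rw [Finset.sum_insert hi]
    exact (h i (Finset.mem_insert_self _ _)).add
      (ih fun j hj => h j (Finset.mem_insert_of_mem hj))

theorem InQ.mul_pow {a : Ω} (ha : InQ p m T a) {b : Ω} (hb : b ∈ T) : InQ p m T (a * b ^ p) := by
  obtain ⟨c, hc, rfl⟩ := ha
  refine ⟨fun μ => c μ * b, fun μ => T.mul_mem (hc μ) hb, ?_⟩
  rw [Finset.sum_mul]
  exact Finset.sum_congr rfl fun μ _ => by rw [_root_.mul_pow]; ring

theorem InQ.base (hm : ∀ μ, m μ ∈ T) (μ : ι) : InQ p m T (m μ) := by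
  classical
  refine ⟨Pi.single μ 1, fun ν => ?_, ?_⟩
  · by_cases h : ν = μ
    · subst h; rw [Pi.single_eq_same]; exact T.one_mem
    · rw [Pi.single_eq_of_ne h]; exact T.zero_mem
  · rw [Finset.sum_eq_single μ]
    · rw [Pi.single_eq_same, one_pow, mul_one]
    · intro ν _ hν
      rw [Pi.single_eq_of_ne hν, zero_pow hp.out.ne_zero, mul_zero]
    · intro h; exact absurd (Finset.mem_univ _) h

theorem InQ.mul (hmm : ∀ μ ν, InQ p m T (m μ * m ν)) {a b : Ω} (ha : InQ p m T a)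
    (hb : InQ p m T b) : InQ p m T (a * b) := by
  obtain ⟨c, hc, rfl⟩ := ha
  obtain ⟨d, hd, rfl⟩ := hb
  rw [Finset.sum_mul]
  refine InQ.sum _ _ fun μ _ => ?_
  rw [Finset.mul_sum]
  refine InQ.sum _ _ fun ν _ => ?_
  have h1 : m μ * c μ ^ p * (m ν * d ν ^ p) = (m μ * m ν) * (c μ * d ν) ^ p := by
    rw [_root_.mul_pow]; ring
  rw [h1]
  exact (hmm μ ν).mul_pow (T.mul_mem (hc μ) (hd ν))

theorem InQ.mono {T' : Subalgebra k Ω} (h : T ≤ T') {a : Ω} (ha : InQ p m T a) :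
    InQ p m T' a := by
  obtain ⟨c, hc, rfl⟩ := ha
  exact ⟨c, fun μ => h (hc μ), rfl⟩

theorem InQ.smul (hk : ∀ c : k, ∃ d : k, d ^ p = c) (c : k) {a : Ω} (ha : InQ p m T a) :
    InQ p m T (algebraMap k Ω c * a) := by
  obtain ⟨d, hd⟩ := hk c
  rw [mul_comm, ← hd, map_pow]
  exact ha.mul_pow (T.algebraMap_mem d)

/-- Generators suffice. -/
theorem PB.of_gen (hk : ∀ c : k, ∃ d : k, d ^ p = c) (hm : ∀ μ, m μ ∈ T)
    (h1 : InQ p m T 1) (hmm : ∀ μ ν, InQ p m T (m μ * m ν)) (G : Set Ω)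
    (hG : ∀ g ∈ G, InQ p m T g) (hT : T ≤ Algebra.adjoin k G) : PB p m T := by
  have key : ∀ t ∈ Algebra.adjoin k G, InQ p m T t := by
    intro t ht
    induction ht using Algebra.adjoin_induction with
    | mem x hx => exact hG x hx
    | algebraMap c =>
      have := h1.smul hk c
      rwa [mul_one] at this
    | add x y _ _ hx hy => exact hx.add hy
    | mul x y _ _ hx hy => exact InQ.mul hmm hx hy
  exact ⟨hm, fun t ht => key t (hT ht)⟩

/-- Localisation. -/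
theorem PB.loc {T' : Subalgebra k Ω} (h : PB p m T) (hTT' : T ≤ T')
    (hloc : ∀ f ∈ T', ∃ a ∈ T, ∃ s ∈ T, s ≠ 0 ∧ s⁻¹ ∈ T' ∧ f = a / s) : PB p m T' := by
  refine ⟨fun μ => hTT' (h.mem μ), fun f hf => ?_⟩
  obtain ⟨a, ha, s, hs, hs0, hsi, rfl⟩ := hloc f hf
  change InQ p m T' (a / s)
  have h1 : a / s = (a * s ^ (p - 1)) * (s⁻¹) ^ p := by
    have h2 : s ^ p = s ^ (p - 1) * s := by
      rw [← pow_succ, Nat.sub_add_cancel hp.out.pos]
    rw [inv_pow, ← div_eq_mul_inv, h2]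
    field_simp
  rw [h1]
  refine InQ.mul_pow ?_ hsi
  have h3 : InQ p m T (a * s ^ (p - 1)) := h.gen _ (T.mul_mem ha (T.pow_mem hs _))
  exact h3.mono hTT'

/-- Composita. -/
theorem PB.sup {ι' : Type*} [Fintype ι'] {m' : ι' → Ω} {T S : Subalgebra k Ω}
    (hk : ∀ c : k, ∃ d : k, d ^ p = c) (hT : PB p m T) (hS : PB p m' S)
    (hmS : ∀ μ, m μ ∈ S) : PB p m' (T ⊔ S) := by
  have hm' : ∀ μ, m' μ ∈ T ⊔ S := fun μ => (le_sup_right : S ≤ T ⊔ S) (hS.mem μ)
  have hSQ : ∀ s ∈ S, InQ p m' (T ⊔ S) s := by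
    intro s hs
    have h1 : InQ p m' S s := hS.gen s hs
    exact h1.mono le_sup_right
  refine PB.of_gen hk hm' (hSQ 1 S.one_mem)
    (fun μ ν => hSQ _ (S.mul_mem (hS.mem μ) (hS.mem ν))) ((T : Set Ω) ∪ (S : Set Ω)) ?_ ?_
  · rintro g (hg | hg)
    · obtain ⟨c, hc, rfl⟩ := hT.gen g hg
      exact InQ.sum _ _ fun μ _ =>
        (hSQ _ (hmS μ)).mul_pow ((le_sup_left : T ≤ T ⊔ S) (hc μ))
    · exact hSQ g hg
  · refine sup_le ?_ ?_
    · exact fun g hg => Algebra.subset_adjoin (Or.inl hg)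
    · exact fun g hg => Algebra.subset_adjoin (Or.inr hg)

/-- A noetherian domain with the `p`-basis property is normal. -/
theorem PB.normal (h : PB p m T) (hi : PInd p m T) [IsNoetherianRing T] {b : Ω}
    (hb : ∃ a₁ ∈ T, ∃ a₂ ∈ T, a₂ ≠ 0 ∧ b = a₁ / a₂) (hint : IsIntegral T b) : b ∈ T := by
  classical
  -- the ideal of the `c` with `c * b ^ n ∈ T` for all `n`
  let C : Ideal T :=
    { carrier := {c | ∀ n : ℕ, (c : Ω) * b ^ n ∈ T}
      add_mem' := by
        intro c d hc hd n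
        change ((c : Ω) + (d : Ω)) * b ^ n ∈ T
        rw [add_mul]
        exact T.add_mem (hc n) (hd n)
      zero_mem' := by
        intro n
        change (0 : Ω) * b ^ n ∈ T
        rw [zero_mul]
        exact T.zero_mem
      smul_mem' := by
        intro a c hc n
        change ((a : Ω) * (c : Ω)) * b ^ n ∈ T
        rw [mul_assoc]
        exact T.mul_mem a.2 (hc n) }
  have hCmem : ∀ c : T, c ∈ C ↔ ∀ n : ℕ, (c : Ω) * b ^ n ∈ T := fun c => Iff.rfl
  -- it is not zero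
  have hC0 : ∃ c : T, c ∈ C ∧ c ≠ 0 := by
    obtain ⟨a₁, ha₁, a₂, ha₂, ha0, hba⟩ := hb
    have h1 : IsAlmostIntegral T b := by
      refine hint.isAlmostIntegral_of_exists_smul_mem_range ⟨⟨a₂, ha₂⟩, ?_, ⟨⟨a₁, ha₁⟩, ?_⟩⟩
      · rw [mem_nonZeroDivisors_iff_ne_zero]
        intro h0
        exact ha0 (congrArg Subtype.val h0)
      · change a₁ = a₂ * b
        rw [hba]
        field_simp
    obtain ⟨c, hc, hc'⟩ := h1
    refine ⟨c, fun n => ?_, nonZeroDivisors.ne_zero hc⟩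
    obtain ⟨z, hz⟩ := hc' n
    have h2 : (z : Ω) = (c : Ω) * b ^ n := hz
    rw [← h2]
    exact z.2
  by_contra hbT
  have hCne : C ≠ ⊤ := by
    intro hC
    have h1 : (1 : T) ∈ C := hC ▸ Submodule.mem_top
    have h2 := h1 1
    rw [pow_one] at h2
    have h3 : ((1 : T) : Ω) * b = b := one_mul b
    rw [h3] at h2
    exact hbT h2
  obtain ⟨P, hP, hCP⟩ := Ideal.exists_le_maximal C hCne
  -- the components of an element of `C` lie in `C`
  have hcomp : ∀ c ∈ C, ∃ d : ι → T, (∀ μ, d μ ∈ C) ∧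
      c = ∑ μ, (⟨m μ, h.mem μ⟩ : T) * d μ ^ p := by
    intro c hc
    obtain ⟨d, hd, hcd⟩ := h.gen c c.2
    refine ⟨fun μ => ⟨d μ, hd μ⟩, ?_, ?_⟩
    · intro μ n
      obtain ⟨e, he, hce⟩ := h.gen _ (hc (p * n))
      have h1 : ∑ ν, m ν * (d ν * b ^ n - e ν) ^ p = 0 := by
        have h2 : ∑ ν, m ν * (d ν * b ^ n - e ν) ^ p =
            ∑ ν, m ν * (d ν * b ^ n) ^ p - ∑ ν, m ν * e ν ^ p := by
          rw [← Finset.sum_sub_distrib]
          exact Finset.sum_congr rfl fun ν _ => by rw [sub_pow_char]; ring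
        have h3 : ∑ ν, m ν * (d ν * b ^ n) ^ p = (c : Ω) * b ^ (p * n) := by
          rw [hcd, Finset.sum_mul]
          exact Finset.sum_congr rfl fun ν _ => by
            rw [mul_pow, ← pow_mul, mul_comm n p]; ring
        rw [h2, h3, hce, sub_self]
      have h4 := hi _ (fun ν => ?_) h1 μ
      · change d μ * b ^ n ∈ T
        rw [sub_eq_zero] at h4
        rw [h4]
        exact he μ
      · obtain ⟨a₁, ha₁, a₂, ha₂, ha0, hba⟩ := hb
        refine ⟨d ν * a₁ ^ n - e ν * a₂ ^ n, T.sub_mem (T.mul_mem (hd ν) (T.pow_mem ha₁ n))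
          (T.mul_mem (he ν) (T.pow_mem ha₂ n)), a₂ ^ n, T.pow_mem ha₂ n, pow_ne_zero n ha0, ?_⟩
        rw [hba, div_pow]
        field_simp
    · apply Subtype.ext
      rw [hcd]
      push_cast
      rfl
  have hpow : ∀ N : ℕ, C ≤ P ^ N := by
    intro N
    induction N with
    | zero => rw [pow_zero, Ideal.one_eq_top]; exact le_top
    | succ N ih =>
      intro c hc
      obtain ⟨d, hd, rfl⟩ := hcomp c hc
      refine Ideal.sum_mem _ fun μ _ => Ideal.mul_mem_left _ _ ?_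
      rcases Nat.eq_zero_or_pos N with rfl | hN
      · rw [zero_add, pow_one]
        exact Ideal.pow_mem_of_mem _ (hCP (hd μ)) _ hp.out.pos
      · have h1 : d μ ^ p ∈ (P ^ N) ^ p := Ideal.pow_mem_pow (ih (hd μ)) _
        rw [← pow_mul] at h1
        refine Ideal.pow_le_pow_right ?_ h1
        have := hp.out.two_le
        nlinarith
  obtain ⟨c, hc, hc0⟩ := hC0
  have h1 : c ∈ (⨅ N : ℕ, P ^ N : Ideal T) := by
    rw [Ideal.mem_iInf]
    exact fun N => hpow N hc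
  rw [Ideal.iInf_pow_eq_bot_of_isDomain P hP.ne_top] at h1
  exact hc0 h1

end InQ

end

end Pool.Agent.LUA
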