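import Mathlib

/-!
# A rank one module which is its own Frobenius pull-back is free

`R` is a noetherian local domain of characteristic `p` with field of fractions `κ`, `q = p^j > 1`,
and `R` has a `q`-basis `w` (finite). If `I ≠ 0` is a finitely generated `R`-submodule of `κ` and
`I` is generated by the elements `θ g^q`, `g ∈ I`, then `I` is principal.
-/

set_option autoImplicit false
set_option linter.unusedSectionVars false

namespace Pool.Agent.LUA

open Finset

section

variable {R κ : Type*} [CommRing R] [IsDomain R] [IsLocalRing R] [IsNoetherianRing R]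
  [Field κ] [Algebra R κ] [FaithfulSMul R κ]

/-- In a minimal system of generators all coefficients of the relations are non-units. -/
theorem minimal_gen {M₀ : Set κ} (hI : (Submodule.span R M₀).FG) :
    ∃ (s : ℕ) (g : Fin s → κ), (∀ i, g i ∈ M₀) ∧
      Submodule.span R (Set.range g) = Submodule.span R M₀ ∧
      ∀ a : Fin s → R, ∑ i, a i • g i = 0 → ∀ i, a i ∈ IsLocalRing.maximalIdeal R := by
  classical
  have hex : ∃ s : ℕ, ∃ g : Fin s → κ, (∀ i, g i ∈ M₀) ∧
      Submodule.span R (Set.range g) = Submodule.span R M₀ := by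
    obtain ⟨S, hSM, hS⟩ := Submodule.fg_span_iff_fg_span_finset_subset M₀ |>.1 hI
    refine ⟨S.card, fun i => (S.equivFin.symm i : κ), fun i => hSM (S.equivFin.symm i).2, ?_⟩
    rw [hS]
    congr 1
    ext x
    constructor
    · rintro ⟨i, rfl⟩
      exact (S.equivFin.symm i).2
    · intro hx
      exact ⟨S.equivFin ⟨x, hx⟩, by simp⟩
  obtain ⟨s, ⟨g, hgM, hg⟩, hmin⟩ : ∃ s : ℕ, (∃ g : Fin s → κ, (∀ i, g i ∈ M₀) ∧
      Submodule.span R (Set.range g) = Submodule.span R M₀) ∧
      ∀ m < s, ¬ ∃ g : Fin m → κ, (∀ i, g i ∈ M₀) ∧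
        Submodule.span R (Set.range g) = Submodule.span R M₀ :=
    ⟨Nat.find hex, Nat.find_spec hex, fun m hm => Nat.find_min hex hm⟩
  refine ⟨s, g, hgM, hg, fun a ha i => ?_⟩
  rw [IsLocalRing.mem_maximalIdeal, mem_nonunits_iff]
  intro hu
  rcases s with _ | s
  · exact i.elim0
  apply hmin s (Nat.lt_succ_self s)
  refine ⟨g ∘ i.succAbove, fun _ => hgM _, ?_⟩
  rw [← hg]
  apply le_antisymm
  · exact Submodule.span_mono (Set.range_comp_subset_range _ _)
  · rw [Submodule.span_le]
    rintro _ ⟨l, rfl⟩
    have hother : ∀ l, l ≠ i → g l ∈ Submodule.span R (Set.range (g ∘ i.succAbove)) := by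
      intro l hl
      obtain ⟨m, rfl⟩ := Fin.exists_succAbove_eq hl
      exact Submodule.subset_span ⟨m, rfl⟩
    by_cases hl : l = i
    · subst hl
      obtain ⟨u, hu⟩ := hu
      have h1 : a l • g l = -∑ m ∈ univ.erase l, a m • g m := by
        rw [← Finset.add_sum_erase _ _ (mem_univ l)] at ha
        exact eq_neg_of_add_eq_zero_left ha
      have h2 : g l = (↑u⁻¹ : R) • (a l • g l) := by
        rw [smul_smul, ← hu, Units.inv_mul, one_smul]
      rw [h2, h1]
      refine Submodule.smul_mem _ _ (Submodule.neg_mem _ (Submodule.sum_mem _ fun m hm => ?_))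
      exact Submodule.smul_mem _ _ (hother m (Finset.ne_of_mem_erase hm))
    · exact hother l hl

/-- `R` noetherian local domain with a `q`-basis `w`, `M₀` generates a finitely generated non-zero
`R`-submodule of rank one of the field `κ`, and the `θ g^q`, `g ∈ M₀`, generate the same module.
Then one element of `M₀` generates it. -/
theorem frob_rank_one_gen (p j : ℕ) [hp : Fact p.Prime] [CharP κ p] (hj : 0 < j) {ι : Type*}
    [Fintype ι] (w : ι → R)
    (hspan : ∀ a : R, ∃ c : ι → R, a = ∑ α, w α * c α ^ p ^ j)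
    (hind : ∀ c : ι → κ, ∑ α, algebraMap R κ (w α) * c α ^ p ^ j = 0 → ∀ α, c α = 0)
    (M₀ : Set κ) (hI : (Submodule.span R M₀).FG) (hI0 : ∃ g ∈ M₀, g ≠ 0) (θ : κ) (hθ : θ ≠ 0)
    (hrk : ∀ a ∈ M₀, ∀ b ∈ M₀, b ≠ 0 → ∃ r s : R, s ≠ 0 ∧ s • a = r • b)
    (hIθ : Submodule.span R M₀ = Submodule.span R {x | ∃ g ∈ M₀, x = θ * g ^ p ^ j}) :
    ∃ g ∈ M₀, g ≠ 0 ∧ Submodule.span R M₀ = Submodule.span R {g} := by
  classical
  have hq2 : 2 ≤ p ^ j := by
    calc 2 ≤ p := hp.out.two_le
      _ = p ^ 1 := (pow_one p).symm
      _ ≤ p ^ j := Nat.pow_le_pow_right hp.out.pos hj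
  obtain ⟨s, g, hgM, hg, hmin⟩ := minimal_gen hI
  set I := Submodule.span R M₀ with hIdef
  set h : Fin s → κ := fun i => θ * g i ^ p ^ j with hh
  have hpowsum : ∀ c : Fin s → κ, (∑ i, c i * g i) ^ p ^ j = ∑ i, c i ^ p ^ j * g i ^ p ^ j := by
    intro c
    rw [sum_pow_char_pow]
    exact Finset.sum_congr rfl fun i _ => mul_pow _ _ _
  have hgI : ∀ i, g i ∈ I := fun i => hg ▸ Submodule.subset_span ⟨i, rfl⟩
  have hspanh : Submodule.span R (Set.range h) = I := by
    apply le_antisymm
    · rw [Submodule.span_le]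
      rintro _ ⟨i, rfl⟩
      rw [hIθ]
      exact Submodule.subset_span ⟨g i, hgM i, rfl⟩
    · conv_lhs => rw [hIθ]
      rw [Submodule.span_le]
      rintro _ ⟨x, hx, rfl⟩
      replace hx : x ∈ I := Submodule.subset_span hx
      rw [← hg, Submodule.mem_span_range_iff_exists_fun] at hx
      obtain ⟨c, rfl⟩ := hx
      have h1 : θ * (∑ i, c i • g i) ^ p ^ j = ∑ i, (c i ^ p ^ j) • h i := by
        have h2 : (∑ i, c i • g i) = ∑ i, algebraMap R κ (c i) * g i :=
          Finset.sum_congr rfl fun i _ => Algebra.smul_def _ _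
        rw [h2, hpowsum, Finset.mul_sum]
        refine Finset.sum_congr rfl fun i _ => ?_
        rw [Algebra.smul_def, map_pow, hh]
        ring
      rw [h1]
      exact Submodule.sum_mem _ fun i _ => Submodule.smul_mem _ _ (Submodule.subset_span ⟨i, rfl⟩)
  have hD : ∀ i, ∃ D : Fin s → R, ∑ l, D l • h l = g i := by
    intro i
    have := hgI i
    rw [← hspanh, Submodule.mem_span_range_iff_exists_fun] at this
    exact this
  choose D hD using hD
  have hE : ∀ i, ∃ E : Fin s → R, ∑ l, E l • g l = h i := by
    intro i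
    have : h i ∈ I := hspanh ▸ Submodule.subset_span ⟨i, rfl⟩
    rw [← hg, Submodule.mem_span_range_iff_exists_fun] at this
    exact this
  choose E hE using hE
  -- `D * E ≡ 1` modulo the maximal ideal
  have hDE : ∀ i l, (1 - Matrix.of D * Matrix.of E) i l ∈ IsLocalRing.maximalIdeal R := by
    intro i l
    refine hmin (fun l => (1 - Matrix.of D * Matrix.of E) i l) ?_ l
    have h1 : ∑ l, (Matrix.of D * Matrix.of E) i l • g l = g i := by
      calc ∑ l, (Matrix.of D * Matrix.of E) i l • g l
          = ∑ l, ∑ m, D i m • (E m l • g l) := by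
            refine Finset.sum_congr rfl fun l _ => ?_
            rw [Matrix.mul_apply, Finset.sum_smul]
            exact Finset.sum_congr rfl fun m _ => by
              rw [Matrix.of_apply, Matrix.of_apply, mul_smul]
        _ = ∑ m, D i m • ∑ l, E m l • g l := by
            rw [Finset.sum_comm]
            exact Finset.sum_congr rfl fun m _ => by rw [Finset.smul_sum]
        _ = g i := by
            rw [← hD i]
            exact Finset.sum_congr rfl fun m _ => by rw [hE m]
    have h2 : ∑ l, (1 : Matrix (Fin s) (Fin s) R) i l • g l = g i := by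
      rw [Finset.sum_eq_single i]
      · rw [Matrix.one_apply_eq, one_smul]
      · intro l _ hl
        rw [Matrix.one_apply_ne hl.symm, zero_smul]
      · intro hi; exact absurd (mem_univ i) hi
    have h3 : ∑ l, (1 - Matrix.of D * Matrix.of E) i l • g l =
        ∑ l, (1 : Matrix (Fin s) (Fin s) R) i l • g l -
          ∑ l, (Matrix.of D * Matrix.of E) i l • g l := by
      rw [← Finset.sum_sub_distrib]
      exact Finset.sum_congr rfl fun l _ => by rw [Matrix.sub_apply, sub_smul]
    rw [h3, h1, h2, sub_self]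
  have hdet : IsUnit (Matrix.of D).det := by
    have h1 : IsUnit (Matrix.of D * Matrix.of E).det := by
      have h2 : (Ideal.Quotient.mk (IsLocalRing.maximalIdeal R))
          (Matrix.of D * Matrix.of E).det = 1 := by
        rw [RingHom.map_det]
        have h3 : (Ideal.Quotient.mk (IsLocalRing.maximalIdeal R)).mapMatrix
            (Matrix.of D * Matrix.of E) = 1 := by
          ext i l
          have h4 := hDE i l
          rw [← Ideal.Quotient.eq_zero_iff_mem, Matrix.sub_apply, map_sub, sub_eq_zero] at h4
          rw [RingHom.mapMatrix_apply, Matrix.map_apply, ← h4]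
          by_cases hil : i = l
          · subst hil
            rw [Matrix.one_apply_eq, Matrix.one_apply_eq, map_one]
          · rw [Matrix.one_apply_ne hil, Matrix.one_apply_ne hil, map_zero]
        rw [h3, Matrix.det_one]
      by_contra hcon
      have h5 : (Matrix.of D * Matrix.of E).det ∈ IsLocalRing.maximalIdeal R := by
        rwa [IsLocalRing.mem_maximalIdeal, mem_nonunits_iff]
      rw [← Ideal.Quotient.eq_zero_iff_mem, h2] at h5
      exact one_ne_zero h5
    rw [Matrix.det_mul] at h1
    exact isUnit_of_mul_isUnit_left h1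
  have hinv : Matrix.of D * (Matrix.of D)⁻¹ = 1 := Matrix.mul_nonsing_inv _ hdet
  -- all relations lie in all powers of the maximal ideal
  have hpow : ∀ t : ℕ, ∀ a : Fin s → R, ∑ i, a i • g i = 0 →
      ∀ i, a i ∈ IsLocalRing.maximalIdeal R ^ (t + 1) := by
    intro t
    induction t with
    | zero =>
      intro a ha i
      rw [zero_add, pow_one]
      exact hmin a ha i
    | succ t ih =>
      intro a ha
      set b : Fin s → R := Matrix.vecMul a (Matrix.of D) with hb
      have hbh : ∑ l, b l • h l = 0 := by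
        calc ∑ l, b l • h l = ∑ l, ∑ i, a i • (D i l • h l) := by
              refine Finset.sum_congr rfl fun l _ => ?_
              rw [hb, Matrix.vecMul, dotProduct, Finset.sum_smul]
              exact Finset.sum_congr rfl fun i _ => by rw [Matrix.of_apply, mul_smul]
          _ = ∑ i, a i • ∑ l, D i l • h l := by
              rw [Finset.sum_comm]
              exact Finset.sum_congr rfl fun i _ => by rw [Finset.smul_sum]
          _ = ∑ i, a i • g i := Finset.sum_congr rfl fun i _ => by rw [hD i]
          _ = 0 := ha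
      have hb2 : ∀ l, b l ∈ IsLocalRing.maximalIdeal R ^ (t + 1 + 1) := by
        choose c hc using fun l => hspan (b l)
        have h1 : ∑ α, algebraMap R κ (w α) *
            (∑ l, algebraMap R κ (c l α) * g l) ^ p ^ j = 0 := by
          have h2 : ∑ l, algebraMap R κ (b l) * g l ^ p ^ j = 0 := by
            have h3 : θ * ∑ l, algebraMap R κ (b l) * g l ^ p ^ j = 0 := by
              rw [← hbh, Finset.mul_sum]
              refine Finset.sum_congr rfl fun l _ => ?_
              rw [Algebra.smul_def, hh]
              ring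
            exact (mul_eq_zero.1 h3).resolve_left hθ
          rw [← h2]
          calc ∑ α, algebraMap R κ (w α) * (∑ l, algebraMap R κ (c l α) * g l) ^ p ^ j
              = ∑ α, ∑ l, algebraMap R κ (w α) * (algebraMap R κ (c l α) ^ p ^ j *
                  g l ^ p ^ j) := by
                refine Finset.sum_congr rfl fun α _ => ?_
                rw [hpowsum, Finset.mul_sum]
            _ = ∑ l, ∑ α, algebraMap R κ (w α) * (algebraMap R κ (c l α) ^ p ^ j *
                  g l ^ p ^ j) := Finset.sum_comm
            _ = _ := by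
                refine Finset.sum_congr rfl fun l _ => ?_
                conv_rhs => rw [hc l]
                rw [map_sum, Finset.sum_mul]
                refine Finset.sum_congr rfl fun α _ => ?_
                rw [map_mul, map_pow]
                ring
        have h4 := hind _ h1
        intro l
        rw [hc l]
        refine Ideal.sum_mem _ fun α _ => Ideal.mul_mem_left _ _ ?_
        have h5 : c l α ∈ IsLocalRing.maximalIdeal R ^ (t + 1) := by
          refine ih (fun l => c l α) ?_ l
          rw [← h4 α]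
          exact Finset.sum_congr rfl fun l _ => Algebra.smul_def _ _
        have h6 : c l α ^ p ^ j ∈ (IsLocalRing.maximalIdeal R ^ (t + 1)) ^ p ^ j :=
          Ideal.pow_mem_pow h5 _
        rw [← pow_mul] at h6
        refine Ideal.pow_le_pow_right ?_ h6
        nlinarith
      intro i
      have h7 : a i = ∑ l, b l * (Matrix.of D)⁻¹ l i := by
        have h8 : a = Matrix.vecMul b (Matrix.of D)⁻¹ := by
          rw [hb, Matrix.vecMul_vecMul, hinv, Matrix.vecMul_one]
        conv_lhs => rw [h8]
        rfl
      rw [h7]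
      exact Ideal.sum_mem _ fun l _ => Ideal.mul_mem_right _ _ (hb2 l)
  -- so there are no relations
  have hZ : ∀ a : Fin s → R, ∑ i, a i • g i = 0 → ∀ i, a i = 0 := by
    intro a ha i
    have h1 : a i ∈ (⨅ t : ℕ, IsLocalRing.maximalIdeal R ^ t : Ideal R) := by
      rw [Ideal.mem_iInf]
      intro t
      exact Ideal.pow_le_pow_right (Nat.le_succ t) (hpow t a ha i)
    rw [Ideal.iInf_pow_eq_bot_of_isLocalRing _ (IsLocalRing.maximalIdeal.isMaximal R).ne_top] at h1
    exact h1
  have hg0 : ∀ i, g i ≠ 0 := by
    intro i h0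
    have h1 := hZ (Pi.single i 1) (by
      rw [Finset.sum_eq_single i]
      · rw [h0, smul_zero]
      · intro l _ hl
        rw [Pi.single_eq_of_ne hl, zero_smul]
      · intro hi; exact absurd (mem_univ i) hi) i
    rw [Pi.single_eq_same] at h1
    exact one_ne_zero h1
  have hs : s = 1 := by
    rcases s with _ | _ | s
    · exfalso
      obtain ⟨g₀, hg₀, hg₀0⟩ := hI0
      apply hg₀0
      have h1 : g₀ ∈ I := Submodule.subset_span hg₀
      rw [← hg, Set.range_eq_empty, Submodule.span_empty, Submodule.mem_bot] at h1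
      exact h1
    · rfl
    · exfalso
      obtain ⟨r, b, hb0, hab⟩ := hrk (g 0) (hgM 0) (g 1) (hgM 1) (hg0 1)
      have h01 : (0 : Fin (s + 1 + 1)) ≠ 1 := by
        intro h; exact absurd (congrArg Fin.val h) (by simp)
      have h1 := hZ (Pi.single 0 b - Pi.single 1 r) (by
        have h2 : ∑ i, (Pi.single 0 b - Pi.single 1 r : Fin (s + 1 + 1) → R) i • g i =
            b • g 0 - r • g 1 := by
          simp only [Pi.sub_apply, sub_smul, Finset.sum_sub_distrib]
          congr 1
          · rw [Finset.sum_eq_single 0]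
            · rw [Pi.single_eq_same]
            · intro l _ hl
              rw [Pi.single_eq_of_ne hl, zero_smul]
            · intro hi; exact absurd (mem_univ _) hi
          · rw [Finset.sum_eq_single 1]
            · rw [Pi.single_eq_same]
            · intro l _ hl
              rw [Pi.single_eq_of_ne hl, zero_smul]
            · intro hi; exact absurd (mem_univ _) hi
        rw [h2, hab, sub_self]) 0
      rw [Pi.sub_apply, Pi.single_eq_same, Pi.single_eq_of_ne h01, sub_zero] at h1
      exact hb0 h1
  subst hs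
  refine ⟨g 0, hgM 0, hg0 0, ?_⟩
  rw [← hg]
  congr 1
  ext x
  constructor
  · rintro ⟨i, rfl⟩
    rw [Subsingleton.elim i 0]
    rfl
  · rintro rfl
    exact ⟨0, rfl⟩

end

section

variable {R κ : Type*} [CommRing R] [IsDomain R] [IsLocalRing R] [IsNoetherianRing R]
  [Field κ] [Algebra R κ] [IsFractionRing R κ]

theorem frob_rank_one (p j : ℕ) [hp : Fact p.Prime] [CharP κ p] (hj : 0 < j) {ι : Type*}
    [Fintype ι] (w : ι → R)
    (hspan : ∀ a : R, ∃ c : ι → R, a = ∑ α, w α * c α ^ p ^ j)
    (hind : ∀ c : ι → κ, ∑ α, algebraMap R κ (w α) * c α ^ p ^ j = 0 → ∀ α, c α = 0)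
    (I : Submodule R κ) (hI : I.FG) (hI0 : I ≠ ⊥) (θ : κ) (hθ : θ ≠ 0)
    (hIθ : I = Submodule.span R {x | ∃ g ∈ I, x = θ * g ^ p ^ j}) :
    ∃ g, g ≠ 0 ∧ I = Submodule.span R {g} := by
  have hsp : Submodule.span R (I : Set κ) = I := Submodule.span_eq I
  obtain ⟨g₀, hg₀, hg₀0⟩ := Submodule.exists_mem_ne_zero_of_ne_bot hI0
  obtain ⟨g, -, hg0, hg⟩ := frob_rank_one_gen p j hj w hspan hind (I : Set κ)
    (by rw [hsp]; exact hI) ⟨g₀, hg₀, hg₀0⟩ θ hθ
    (fun a _ b _ hb => by
      obtain ⟨r, s, hs, hrs⟩ := IsFractionRing.div_surjective (A := R) (a / b)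
      have hs0 : s ≠ 0 := nonZeroDivisors.ne_zero hs
      have hs0' : algebraMap R κ s ≠ 0 := by
        rwa [Ne, FaithfulSMul.algebraMap_eq_zero_iff]
      refine ⟨r, s, hs0, ?_⟩
      rw [div_eq_div_iff hs0' hb] at hrs
      rw [Algebra.smul_def, Algebra.smul_def, mul_comm, ← hrs])
    (by
      conv_lhs => rw [hsp]
      exact hIθ)
  exact ⟨g, hg0, by rw [← hg, hsp]⟩

end

end Pool.Agent.LUA
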