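import Mathlib

/-!
# Every linearly ordered abelian group embeds into a linearly ordered field
-/

set_option autoImplicit false

namespace Pool.Agent.LUA

open HahnSeries

universe u

theorem single_strictMono {C : Type*} [LinearOrder C] :
    StrictMono fun c : C => (toColex (Finsupp.single c (1 : ℤ)) : Colex (C →₀ ℤ)) := by
  intro a b hab
  rw [Finsupp.Colex.lt_iff]
  refine ⟨b, fun j hj => ?_, ?_⟩
  · have h1 : b ≠ j := ne_of_lt hj
    have h2 : a ≠ j := ne_of_lt (hab.trans hj)
    simp [Finsupp.single_eq_of_ne h1.symm, Finsupp.single_eq_of_ne h2.symm]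
  · simp [Finsupp.single_eq_of_ne hab.ne']

/-- Every linearly ordered abelian group embeds into a linearly ordered field. -/
theorem exists_ordered_field (M : Type u) [AddCommGroup M] [LinearOrder M]
    [IsOrderedAddMonoid M] :
    ∃ (𝕂 : Type u) (_ : Field 𝕂) (_ : LinearOrder 𝕂) (_ : IsStrictOrderedRing 𝕂) (f : M →+ 𝕂),
      StrictMono f := by
  obtain ⟨f, hf, -⟩ := hahnEmbedding_isOrderedAddMonoid M
  let C := FiniteArchimedeanClass M
  let Γ := Colex (C →₀ ℤ)
  let e : C ↪o Γ := OrderEmbedding.ofStrictMono (fun c : C => toColex (Finsupp.single c (1 : ℤ)))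
    single_strictMono
  let g : Lex (HahnSeries C ℝ) →+o Lex (HahnSeries Γ ℝ) := embDomainOrderAddMonoidHom e
  have hg : Function.Injective g := embDomainOrderAddMonoidHom_injective e
  let iF : Field (HahnSeries Γ ℝ) := inferInstance
  let iF' : Field (Lex (HahnSeries Γ ℝ)) := inferInstance
  refine ⟨Lex (HahnSeries Γ ℝ), iF', inferInstance, inferInstance,
    (g.comp f).toAddMonoidHom, ?_⟩
  exact (OrderHomClass.monotone (g.comp f)).strictMono_of_injective (hg.comp hf)

end Pool.Agent.LUA
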