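import Pool.Agent.Lib.ALL_h42.PB

/-!
# The `p`-basis property from derivations

`z_1, …, z_n ∈ K`, `δ_i` derivations with `δ_i z_j = 0` for `i ≠ j` and `δ_i z_i = 1` or `z_i`
(logarithmic type). If an additive subgroup `T` is stable under the `δ_i` and contains
`∑ μ, z^μ * c μ` with all `δ_i (c μ) = 0`, then it contains all `c μ`.
-/

set_option autoImplicit false
set_option linter.unusedSectionVars false
set_option linter.unusedVariables false

namespace Pool.Agent.LUA

variable {k K : Type*} [Field k] [Field K] [Algebra k K] {p : ℕ} [hp : Fact p.Prime] [CharP K p]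

/-- Division by integers prime to `p` in additive subgroups. -/
theorem mem_of_nsmul_mem (T : AddSubgroup K) {a : ℕ} (ha : ¬ p ∣ a) {t : K}
    (h : (a : K) * t ∈ T) : t ∈ T := by
  have hco : IsCoprime (a : ℤ) (p : ℤ) := by
    rw [Nat.isCoprime_iff_coprime]
    exact ((Nat.Prime.coprime_iff_not_dvd hp.out).2 ha).symm
  obtain ⟨u, v, huv⟩ := hco
  have h1 : t = u • ((a : K) * t) := by
    have h2 : ((u * a + v * p : ℤ) : K) = 1 := by rw [huv]; exact Int.cast_one
    push_cast at h2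
    rw [CharP.cast_eq_zero K p, mul_zero, add_zero] at h2
    rw [zsmul_eq_mul, ← mul_assoc, h2, one_mul]
  rw [h1]
  exact T.zsmul_mem h u

/-- One variable, `δ z = 1`. -/
theorem one_var (δ : Derivation k K K) {z : K} (hz : δ z = 1) (T : AddSubgroup K)
    (hT : ∀ t ∈ T, δ t ∈ T) (hzT : ∀ t ∈ T, z * t ∈ T) :
    ∀ (N : ℕ), N ≤ p → ∀ t : ℕ → K, (∀ β, δ (t β) = 0) →
      ∑ β ∈ Finset.range N, z ^ β * t β ∈ T → ∀ β < N, t β ∈ T := by
  intro N
  induction N with
  | zero => intro _ t _ _ β hβ; exact absurd hβ (Nat.not_lt_zero β)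
  | succ N ih =>
    intro hN t ht hsum
    have hpow : ∀ (j : ℕ) (s : K), s ∈ T → z ^ j * s ∈ T := by
      intro j
      induction j with
      | zero => intro s hs; rwa [pow_zero, one_mul]
      | succ j ihj => intro s hs; rw [pow_succ', mul_assoc]; exact hzT _ (ihj s hs)
    have h1 : δ (∑ β ∈ Finset.range (N + 1), z ^ β * t β) =
        ∑ β ∈ Finset.range N, z ^ β * (((β + 1 : ℕ) : K) * t (β + 1)) := by
      rw [map_sum, Finset.sum_range_succ']
      have h2 : δ (z ^ 0 * t 0) = 0 := by rw [pow_zero, one_mul, ht]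
      rw [h2, add_zero]
      refine Finset.sum_congr rfl fun β _ => ?_
      rw [Derivation.leibniz, ht, smul_zero, zero_add, Derivation.leibniz_pow, hz,
        Nat.add_sub_cancel]
      simp only [smul_eq_mul, nsmul_eq_mul, mul_one]
      ring
    have h3 := ih (by omega) (fun β => ((β + 1 : ℕ) : K) * t (β + 1)) (fun β => by
      rw [Derivation.leibniz, ht, smul_zero, zero_add, Derivation.map_natCast, smul_zero])
      (h1 ▸ hT _ hsum)
    have h4 : ∀ β < N, t (β + 1) ∈ T := fun β hβ =>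
      mem_of_nsmul_mem (p := p) T (Nat.not_dvd_of_pos_of_lt (Nat.succ_pos β) (by omega)) (h3 β hβ)
    have h5 : t 0 ∈ T := by
      rw [Finset.sum_range_succ', pow_zero, one_mul] at hsum
      have h6 : ∑ β ∈ Finset.range N, z ^ (β + 1) * t (β + 1) ∈ T :=
        T.sum_mem fun β hβ => hpow _ _ (h4 β (Finset.mem_range.1 hβ))
      have := T.sub_mem hsum h6
      rwa [add_sub_cancel_left] at this
    intro β hβ
    rcases β with _ | β
    · exact h5
    · exact h4 β (by omega)

/-- One variable, `δ z = z`. -/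
theorem one_var_log (δ : Derivation k K K) {z : K} (hz : δ z = z) (hz0 : z ≠ 0)
    (T : AddSubgroup K) (hT : ∀ t ∈ T, δ t ∈ T) (hzT : ∀ t ∈ T, z⁻¹ * t ∈ T) :
    ∀ (S : Finset ℕ), (∀ β ∈ S, β < p) → ∀ t : ℕ → K, (∀ β, δ (t β) = 0) →
      ∑ β ∈ S, z ^ β * t β ∈ T → ∀ β ∈ S, z ^ β * t β ∈ T := by
  intro S
  induction S using Finset.induction_on with
  | empty => intro _ t _ _ β hβ; exact absurd hβ (Finset.notMem_empty β)
  | insert j S hjS ih =>
    intro hS t ht hsum
    have hδ : ∀ β, δ (z ^ β * t β) = (β : K) * (z ^ β * t β) := by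
      intro β
      rw [Derivation.leibniz, ht, smul_zero, zero_add, Derivation.leibniz_pow, hz]
      simp only [smul_eq_mul, nsmul_eq_mul]
      rcases β with _ | β
      · simp
      · rw [Nat.add_sub_cancel, pow_succ]; ring
    have hpj : j < p := hS j (Finset.mem_insert_self _ _)
    -- apply `δ + (p - j)`
    have h1 : ∑ β ∈ S, z ^ β * (((β + (p - j) : ℕ) : K) * t β) ∈ T := by
      have h2 : δ (∑ β ∈ insert j S, z ^ β * t β) +
          (p - j : ℕ) • ∑ β ∈ insert j S, z ^ β * t β =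
          ∑ β ∈ S, z ^ β * (((β + (p - j) : ℕ) : K) * t β) := by
        rw [map_sum, Finset.smul_sum, ← Finset.sum_add_distrib, Finset.sum_insert hjS]
        have h3 : δ (z ^ j * t j) + (p - j : ℕ) • (z ^ j * t j) = 0 := by
          rw [hδ, nsmul_eq_mul, ← add_mul, ← Nat.cast_add, Nat.add_sub_cancel' hpj.le,
            CharP.cast_eq_zero K p, zero_mul]
        rw [h3, zero_add]
        refine Finset.sum_congr rfl fun β _ => ?_
        rw [hδ, nsmul_eq_mul]
        push_cast
        ring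
      rw [← h2]
      exact T.add_mem (hT _ hsum) (T.nsmul_mem hsum _)
    have h4 := ih (fun β hβ => hS β (Finset.mem_insert_of_mem hβ))
      (fun β => ((β + (p - j) : ℕ) : K) * t β) (fun β => by
      rw [Derivation.leibniz, ht, smul_zero, zero_add, Derivation.map_natCast, smul_zero]) h1
    have h5 : ∀ β ∈ S, z ^ β * t β ∈ T := by
      intro β hβ
      have h6 : ¬ p ∣ β + (p - j) := by
        intro hd
        have hβp := hS β (Finset.mem_insert_of_mem hβ)
        have hne : β ≠ j := fun h => hjS (h ▸ hβ)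
        obtain ⟨c, hc⟩ := hd
        have hc1 : c = 1 := by
          have h7 : 0 < c := by
            rcases Nat.eq_zero_or_pos c with rfl | h
            · omega
            · exact h
          have h8 : c < 2 := by
            by_contra hcon
            have : p * 2 ≤ p * c := Nat.mul_le_mul_left _ (by omega)
            omega
          omega
        subst hc1
        omega
      refine mem_of_nsmul_mem (p := p) T h6 ?_
      have h7 := h4 β hβ
      have h8 : ((β + (p - j) : ℕ) : K) * (z ^ β * t β) =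
          z ^ β * (((β + (p - j) : ℕ) : K) * t β) := by ring
      rwa [h8]
    intro β hβ
    rcases Finset.mem_insert.1 hβ with rfl | hβ
    · rw [Finset.sum_insert hjS] at hsum
      have := T.sub_mem hsum (T.sum_mem h5)
      rwa [add_sub_cancel_right] at this
    · exact h5 β hβ

/-- Both types. -/
theorem one_var_both (δ : Derivation k K K) {z : K} (T : AddSubgroup K)
    (hT : ∀ t ∈ T, δ t ∈ T)
    (h : (δ z = 1 ∧ ∀ t ∈ T, z * t ∈ T) ∨ (δ z = z ∧ z ≠ 0 ∧ ∀ t ∈ T, z⁻¹ * t ∈ T))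
    (t : Fin p → K) (ht : ∀ β, δ (t β) = 0) (hsum : ∑ β : Fin p, z ^ (β : ℕ) * t β ∈ T) :
    ∀ β, t β ∈ T := by
  classical
  set t' : ℕ → K := fun β => if hβ : β < p then t ⟨β, hβ⟩ else 0 with ht'
  have ht0 : ∀ β, δ (t' β) = 0 := by
    intro β
    rw [ht']
    by_cases hβ : β < p
    · simp only [hβ, dif_pos, ht]
    · simp only [hβ, dif_neg, not_false_eq_true, map_zero]
  have hval : ∀ β : Fin p, t' β = t β := by
    intro β
    rw [ht']
    simp only [β.2, dif_pos]
  have hsum' : ∑ β ∈ Finset.range p, z ^ β * t' β ∈ T := by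
    have h0 : ∑ β ∈ Finset.range p, z ^ β * t' β = ∑ β : Fin p, z ^ (β : ℕ) * t β := by
      rw [Finset.sum_range]
      exact Finset.sum_congr rfl fun β _ => by rw [hval]
    rw [h0]
    exact hsum
  rcases h with ⟨h1, h2⟩ | ⟨h1, h2, h3⟩
  · intro β
    rw [← hval]
    exact one_var δ h1 T hT h2 p le_rfl t' ht0 hsum' β β.2
  · intro β
    rw [← hval]
    have h4 := one_var_log δ h1 h2 T hT h3 (Finset.range p) (fun β hβ => Finset.mem_range.1 hβ) t'
      ht0 hsum' β (Finset.mem_range.2 β.2)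
    have h5 : ∀ (j : ℕ) (s : K), s ∈ T → z⁻¹ ^ j * s ∈ T := by
      intro j
      induction j with
      | zero => intro s hs; rwa [pow_zero, one_mul]
      | succ j ihj => intro s hs; rw [pow_succ', mul_assoc]; exact h3 _ (ihj s hs)
    have h6 := h5 β _ h4
    rwa [← mul_assoc, ← mul_pow, inv_mul_cancel₀ h2, one_pow, one_mul] at h6

/-- Several variables. -/
theorem multi_var : ∀ (n : ℕ) (z : Fin n → K) (δ : Fin n → Derivation k K K) (T : AddSubgroup K),
    (∀ i, ∀ t ∈ T, δ i t ∈ T) →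
    (∀ i, (δ i (z i) = 1 ∧ ∀ t ∈ T, z i * t ∈ T) ∨
      (δ i (z i) = z i ∧ z i ≠ 0 ∧ ∀ t ∈ T, (z i)⁻¹ * t ∈ T)) →
    (∀ i j, i ≠ j → δ i (z j) = 0) →
    ∀ c : (Fin n → Fin p) → K, (∀ i μ, δ i (c μ) = 0) →
    ∑ μ, (∏ i, z i ^ (μ i : ℕ)) * c μ ∈ T → ∀ μ, c μ ∈ T := by
  intro n
  induction n with
  | zero =>
    intro z δ T _ _ _ c _ hsum μ
    have h0 : ∑ μ : Fin 0 → Fin p, (∏ i, z i ^ (μ i : ℕ)) * c μ = c μ := by
      rw [Fintype.sum_subsingleton _ μ, Finset.univ_eq_empty, Finset.prod_empty, one_mul]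
    rwa [h0] at hsum
  | succ n ih =>
    intro z δ T hT hz hzz c hc hsum
    set t : Fin p → K := fun β => ∑ μ : Fin n → Fin p, (∏ i, z i.succ ^ (μ i : ℕ)) *
      c (Fin.cons β μ) with ht
    have h1 : ∑ β : Fin p, z 0 ^ (β : ℕ) * t β =
        ∑ μ : Fin (n + 1) → Fin p, (∏ i, z i ^ (μ i : ℕ)) * c μ := by
      rw [← (Fin.consEquiv (fun _ : Fin (n + 1) => Fin p)).sum_comp, Fintype.sum_prod_type]
      refine Finset.sum_congr rfl fun β _ => ?_
      rw [ht, Finset.mul_sum]
      refine Finset.sum_congr rfl fun μ _ => ?_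
      have h2 : (Fin.consEquiv (fun _ : Fin (n + 1) => Fin p)) (β, μ) = Fin.cons β μ := rfl
      rw [h2, Fin.prod_univ_succ, Fin.cons_zero]
      simp only [Fin.cons_succ]
      ring
    have h3 : ∀ β, δ 0 (t β) = 0 := by
      intro β
      rw [ht]
      simp only
      rw [map_sum]
      refine Finset.sum_eq_zero fun μ _ => ?_
      rw [Derivation.leibniz, hc, smul_zero, zero_add]
      have h4 : δ 0 (∏ i : Fin n, z i.succ ^ (μ i : ℕ)) = 0 := by
        have h5 : ∀ s : Finset (Fin n), δ 0 (∏ i ∈ s, z i.succ ^ (μ i : ℕ)) = 0 := by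
          intro s
          induction s using Finset.induction_on with
          | empty => rw [Finset.prod_empty, Derivation.map_one_eq_zero]
          | insert i s hi ihs =>
            rw [Finset.prod_insert hi, Derivation.leibniz, ihs, smul_zero, zero_add,
              Derivation.leibniz_pow, hzz 0 i.succ (Fin.succ_ne_zero i).symm]
            simp
        exact h5 Finset.univ
      rw [h4, smul_zero]
    have h6 : ∀ β, t β ∈ T := one_var_both (δ 0) T (hT 0) (hz 0) t h3 (h1 ▸ hsum)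
    intro μ
    have h7 := ih (fun i => z i.succ) (fun i => δ i.succ) T (fun i => hT i.succ)
      (fun i => hz i.succ) (fun i j hij => hzz _ _ fun h => hij (Fin.succ_injective _ h))
      (fun μ' => c (Fin.cons (μ 0) μ')) (fun i μ' => hc _ _) (h6 (μ 0)) (Fin.tail μ)
    simp only [Fin.cons_self_tail] at h7
    exact h7

section

variable {n : ℕ} (z : Fin n → K) (δ : Fin n → Derivation k K K)

/-- Derivations kill `p`-th powers. -/
theorem der_pow_char (δ : Derivation k K K) (c : K) : δ (c ^ p) = 0 := by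
  rw [Derivation.leibniz_pow, ← smul_assoc, nsmul_eq_mul, CharP.cast_eq_zero K p, zero_mul,
    zero_smul]

/-- The `p`-basis property from derivations. -/
theorem PB.of_der (log : Fin n → Prop)
    (hδ : ∀ i, (¬ log i ∧ δ i (z i) = 1) ∨ (log i ∧ δ i (z i) = z i))
    (hzz : ∀ i j, i ≠ j → δ i (z j) = 0) (hz0 : ∀ i, z i ≠ 0) (T : Subalgebra k K)
    (hT : ∀ i, ∀ t ∈ T, δ i t ∈ T) (hzT : ∀ i, z i ∈ T) (hzT' : ∀ i, log i → (z i)⁻¹ ∈ T)
    (hspan : ∀ t ∈ T, ∃ c : (Fin n → Fin p) → K, t = ∑ μ, (∏ i, z i ^ (μ i : ℕ)) * c μ ^ p)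
    (hnorm : ∀ b : K, b ^ p ∈ T → b ∈ T) :
    PB p (fun μ : Fin n → Fin p => ∏ i, z i ^ (μ i : ℕ)) T := by
  refine ⟨fun μ => T.prod_mem fun i _ => T.pow_mem (hzT i) _, fun t ht => ?_⟩
  obtain ⟨c, hc⟩ := hspan t ht
  refine ⟨c, fun μ => hnorm _ ?_, hc⟩
  refine multi_var n z δ T.toSubring.toAddSubgroup (fun i t ht => hT i t ht) (fun i => ?_) hzz
    (fun μ => c μ ^ p) (fun i μ => der_pow_char _ _) (by rw [← hc]; exact ht) μ
  rcases hδ i with ⟨_, h1⟩ | ⟨h0, h1⟩
  · exact Or.inl ⟨h1, fun t ht => T.mul_mem (hzT i) ht⟩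
  · exact Or.inr ⟨h1, hz0 i, fun t ht => T.mul_mem (hzT' i h0) ht⟩

/-- Independence of the monomials over the `p`-th powers, from derivations. -/
theorem pind_of_der (hδ : ∀ i, δ i (z i) = 1 ∨ δ i (z i) = z i) (hz0 : ∀ i, z i ≠ 0)
    (hzz : ∀ i j, i ≠ j → δ i (z j) = 0) (c : (Fin n → Fin p) → K)
    (h : ∑ μ, (∏ i, z i ^ (μ i : ℕ)) * c μ ^ p = 0) : ∀ μ, c μ = 0 := by
  intro μ
  have h1 := multi_var n z δ (⊥ : AddSubgroup K) (fun i t ht => by
      rw [AddSubgroup.mem_bot] at ht ⊢; rw [ht, map_zero]) (fun i => ?_) hzz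
    (fun μ => c μ ^ p) (fun i μ => der_pow_char _ _) (by rw [h]; exact AddSubgroup.zero_mem _) μ
  · rw [AddSubgroup.mem_bot] at h1
    exact pow_eq_zero_iff hp.out.ne_zero |>.1 h1
  · rcases hδ i with h1 | h1
    · refine Or.inl ⟨h1, fun t ht => ?_⟩
      rw [AddSubgroup.mem_bot] at ht ⊢; rw [ht, mul_zero]
    · refine Or.inr ⟨h1, hz0 i, fun t ht => ?_⟩
      rw [AddSubgroup.mem_bot] at ht ⊢; rw [ht, mul_zero]

end

end Pool.Agent.LUA
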