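import Mathlib

/-!
# Block Z5c, abstract algebra

* `newton_esymm`, `newton_root`: if all power sums `∑ a_j^i`, `1 ≤ i ≤ ρ`, lie in the ideal `P` then
  `a_j^ρ` is a combination of `a_j^i`, `i < ρ`, with coefficients in `P`.
* `trace_fg`: finiteness of a module on which the trace form is non-degenerate modulo a prime.
* `nak_span`: Nakayama.
-/

set_option autoImplicit false
set_option linter.unusedSectionVars false
set_option linter.unusedVariables false

namespace Pool.Agent.LUA

open Finset

section Newton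

variable {R N : Type*} [CommRing R] [CommRing N] [Algebra R N] {ι : Type*} [Fintype ι]

/-- Newton's identities modulo an ideal. -/
theorem newton_esymm (hinj : Function.Injective (algebraMap R N)) (a : ι → N) (P : Ideal R)
    (hP : ∀ i : ℕ, 1 ≤ i → i ≤ Fintype.card ι → ∀ x : R, (i : R) * x ∈ P → x ∈ P)
    (e : ℕ → R) (he : ∀ i ≤ Fintype.card ι,
      algebraMap R N (e i) = ((univ : Finset ι).val.map a).esymm i)
    (t : ℕ → R) (ht : ∀ i, 1 ≤ i → i ≤ Fintype.card ι →
      t i ∈ P ∧ algebraMap R N (t i) = ∑ j, a j ^ i) :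
    ∀ i, 1 ≤ i → i ≤ Fintype.card ι → e i ∈ P := by
  classical
  intro i hi1 hi2
  refine hP i hi1 hi2 _ ?_
  have h1 := congrArg (MvPolynomial.aeval a) (MvPolynomial.mul_esymm_eq_sum ι R i)
  rw [map_mul, map_natCast, MvPolynomial.aeval_esymm_eq_multiset_esymm, ← he i hi2, map_mul,
    map_pow, map_neg, map_one, map_sum] at h1
  have h2 : (i : R) * e i = (-1) ^ (i + 1) *
      ∑ x ∈ antidiagonal i with x.1 < i, (-1) ^ x.1 * e x.1 * t x.2 := by
    apply hinj
    rw [map_mul, map_natCast, h1, map_mul, map_pow, map_neg, map_one, map_sum]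
    congr 1
    refine Finset.sum_congr rfl fun x hx => ?_
    rw [Finset.mem_filter, Finset.HasAntidiagonal.mem_antidiagonal] at hx
    rw [map_mul, map_mul, map_pow, map_neg, map_one, MvPolynomial.aeval_esymm_eq_multiset_esymm,
      ← he x.1 (by omega), map_mul, map_mul, map_pow, map_neg, map_one,
      (ht x.2 (by omega) (by omega)).2]
    congr 1
    simp [MvPolynomial.psum]
  rw [h2]
  refine Ideal.mul_mem_left _ _ (Ideal.sum_mem _ fun x hx => Ideal.mul_mem_left _ _ ?_)
  rw [Finset.mem_filter, Finset.HasAntidiagonal.mem_antidiagonal] at hx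
  exact (ht x.2 (by omega) (by omega)).1

/-- The root equation. -/
theorem root_eq (a : ι → N) (j : ι) :
    ∑ l ∈ range (Fintype.card ι + 1),
      (-1) ^ l * (((univ : Finset ι).val.map a).esymm l * a j ^ (Fintype.card ι - l)) = 0 := by
  have h1 := congrArg (Polynomial.eval (a j))
    (Multiset.prod_X_sub_X_eq_sum_esymm ((univ : Finset ι).val.map a))
  have hcard : Multiset.card ((univ : Finset ι).val.map a) = Fintype.card ι := by
    rw [Multiset.card_map]; rfl
  rw [hcard, Polynomial.eval_finsetSum] at h1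
  have h2 : Polynomial.eval (a j) (Multiset.map (fun t => Polynomial.X - Polynomial.C t)
      ((univ : Finset ι).val.map a)).prod = 0 := by
    rw [Polynomial.eval_multiset_prod, Multiset.map_map, Multiset.map_map]
    refine Multiset.prod_eq_zero ?_
    rw [Multiset.mem_map]
    exact ⟨j, Finset.mem_univ_val j, by simp⟩
  rw [h2] at h1
  rw [h1]
  refine Finset.sum_congr rfl fun l _ => ?_
  simp

theorem newton_root (hinj : Function.Injective (algebraMap R N)) (a : ι → N) (P : Ideal R)
    (hP : ∀ i : ℕ, 1 ≤ i → i ≤ Fintype.card ι → ∀ x : R, (i : R) * x ∈ P → x ∈ P)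
    (e : ℕ → R) (he : ∀ i ≤ Fintype.card ι,
      algebraMap R N (e i) = ((univ : Finset ι).val.map a).esymm i)
    (t : ℕ → R) (ht : ∀ i, 1 ≤ i → i ≤ Fintype.card ι →
      t i ∈ P ∧ algebraMap R N (t i) = ∑ j, a j ^ i) (j : ι) :
    ∃ c : ℕ → R, (∀ i, c i ∈ P) ∧
      a j ^ Fintype.card ι = ∑ i ∈ range (Fintype.card ι), algebraMap R N (c i) * a j ^ i := by
  classical
  have h0 := newton_esymm hinj a P hP e he t ht
  refine ⟨fun i => if i < Fintype.card ι then
    -((-1) ^ (Fintype.card ι - i) * e (Fintype.card ι - i)) else 0, fun i => ?_, ?_⟩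
  · dsimp only
    split_ifs with h
    · exact P.neg_mem (Ideal.mul_mem_left _ _ (h0 _ (by omega) (by omega)))
    · exact P.zero_mem
  · have h1 := root_eq a j
    rw [Finset.sum_range_succ'] at h1
    have h0' : ((univ : Finset ι).val.map a).esymm 0 = 1 := by
      simp [Multiset.esymm]
    rw [pow_zero, one_mul, Nat.sub_zero, h0', one_mul] at h1
    have h2 := eq_neg_of_add_eq_zero_right h1
    rw [h2, ← Finset.sum_neg_distrib, ← Finset.sum_range_reflect]
    refine Finset.sum_congr rfl fun i hi => ?_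
    rw [Finset.mem_range] at hi
    have h3 : Fintype.card ι - 1 - i + 1 = Fintype.card ι - i := by omega
    have h4 : Fintype.card ι - (Fintype.card ι - i) = i := by omega
    dsimp only
    rw [if_pos hi, h3, h4, ← he _ (Nat.sub_le _ _)]
    rw [map_neg, map_mul, map_pow, map_neg, map_one]
    ring

end Newton

section Trace

variable {R A : Type*} [CommRing R] [CommRing A] [Algebra R A]

/-- Finiteness by a trace form. `P` is a prime of `R` with `R/P` noetherian, `J` an ideal of `A`
above `P`, `T : A → R` linear with `T J ⊆ P`; if `b ∈ B` satisfies `T (b ^ i) ∈ P` for all `i ≥ 1`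
then `b ∈ J`; the image of `B` in `A/J` has rank at most `ρ` over `R/P`. -/
theorem trace_fg (P : Ideal R) [hPp : P.IsPrime] [IsNoetherianRing (R ⧸ P)] (J : Ideal A)
    (hPJ : ∀ x ∈ P, algebraMap R A x ∈ J) (T : A →ₗ[R] R) (hT : ∀ b ∈ J, T b ∈ P)
    (B : Subalgebra R A) (hN : ∀ b ∈ B, (∀ i, 1 ≤ i → T (b ^ i) ∈ P) → b ∈ J) (ρ : ℕ)
    (hrk : ∀ e : Fin (ρ + 1) → A, (∀ i, e i ∈ B) →
      ∃ r : Fin (ρ + 1) → R, ∑ i, algebraMap R A (r i) * e i ∈ J ∧ ∃ i, r i ∉ P) :
    (B.toSubmodule.map (Submodule.mkQ (J.restrictScalars R))).FG := by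
  classical
  -- a maximal independent family
  let Q : ℕ → Prop := fun h => ∃ e : Fin h → A, (∀ i, e i ∈ B) ∧
    ∀ r : Fin h → R, ∑ i, algebraMap R A (r i) * e i ∈ J → ∀ i, r i ∈ P
  have hQ0 : Q 0 := ⟨fun i => i.elim0, fun i => i.elim0, fun r _ i => i.elim0⟩
  have hQbound : ∀ h, Q h → h ≤ ρ := by
    rintro h ⟨e, he, hind⟩
    by_contra hcon
    push Not at hcon
    obtain ⟨r, hr, i, hi⟩ := hrk (fun i => e (Fin.castLE hcon i)) (fun i => he _)
    apply hi
    let r' : Fin h → R := fun l => if hl : (l : ℕ) < ρ + 1 then r ⟨l, hl⟩ else 0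
    have h1 : ∑ l, algebraMap R A (r' l) * e l =
        ∑ i, algebraMap R A (r i) * e (Fin.castLE hcon i) := by
      have h2 : ∑ i : Fin (ρ + 1), algebraMap R A (r i) * e (Fin.castLE hcon i) =
          ∑ l ∈ Finset.univ.map (Fin.castLEEmb hcon), algebraMap R A (r' l) * e l := by
        rw [Finset.sum_map]
        refine Finset.sum_congr rfl fun i _ => ?_
        have : r' ((Fin.castLEEmb hcon) i) = r i := by
          change (if hl : ((Fin.castLE hcon i : Fin h) : ℕ) < ρ + 1 then r ⟨_, hl⟩ else 0) = r i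
          rw [dif_pos (by rw [Fin.val_castLE]; exact i.2)]
          rfl
        rw [this]
        rfl
      rw [h2]
      symm
      refine Finset.sum_subset (Finset.subset_univ _) fun l _ hl => ?_
      have : r' l = 0 := by
        change (if hl : (l : ℕ) < ρ + 1 then r ⟨_, hl⟩ else 0) = 0
        rw [dif_neg]
        intro hlt
        apply hl
        rw [Finset.mem_map]
        exact ⟨⟨l, hlt⟩, Finset.mem_univ _, by ext; rfl⟩
      rw [this, map_zero, zero_mul]
    have h3 := hind r' (h1 ▸ hr) (Fin.castLE hcon i)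
    have h4 : r' (Fin.castLE hcon i) = r i := by
      change (if hl : ((Fin.castLE hcon i : Fin h) : ℕ) < ρ + 1 then r ⟨_, hl⟩ else 0) = r i
      rw [dif_pos (by rw [Fin.val_castLE]; exact i.2)]
      rfl
    rwa [h4] at h3
  obtain ⟨h, ⟨e, he, hind⟩, hmax⟩ : ∃ h, Q h ∧ ¬ Q (h + 1) := by
    by_contra hcon
    push Not at hcon
    have : ∀ h, Q h := by
      intro h
      induction h with
      | zero => exact hQ0
      | succ h ih => exact hcon h ih
    have := hQbound _ (this (ρ + 1))
    omega
  -- every element is dependent on the family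
  have hdep : ∀ b ∈ B, ∃ r : R, r ∉ P ∧ ∃ s : Fin h → R,
      algebraMap R A r * b + ∑ i, algebraMap R A (s i) * e i ∈ J := by
    intro b hb
    by_contra hcon
    push Not at hcon
    apply hmax
    refine ⟨Fin.cons b e, fun i => ?_, fun r hr => ?_⟩
    · refine Fin.cases ?_ (fun i => ?_) i
      · rw [Fin.cons_zero]; exact hb
      · rw [Fin.cons_succ]; exact he i
    · rw [Fin.sum_univ_succ, Fin.cons_zero] at hr
      simp only [Fin.cons_succ] at hr
      have h0 : r 0 ∈ P := by
        by_contra h0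
        exact hcon (r 0) h0 (fun i => r i.succ) hr
      have h1 : ∑ i : Fin h, algebraMap R A (r i.succ) * e i ∈ J := by
        have := J.sub_mem hr (J.mul_mem_right b (hPJ _ h0))
        rwa [add_sub_cancel_left] at this
      have h2 := hind _ h1
      intro i
      refine Fin.cases h0 (fun i => h2 i) i
  -- the embedding
  let φ : A →ₗ[R] (Fin h → R ⧸ P) := LinearMap.pi fun i =>
    (Submodule.mkQ P).comp (T.comp (LinearMap.mulLeft R (e i)))
  have hφJ : (J.restrictScalars R) ≤ LinearMap.ker φ := by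
    intro b hb
    rw [LinearMap.mem_ker]
    ext i
    change Ideal.Quotient.mk P (T (e i * b)) = 0
    rw [Ideal.Quotient.eq_zero_iff_mem]
    exact hT _ (J.mul_mem_left _ hb)
  let ψ : (A ⧸ (J.restrictScalars R)) →ₗ[R] (Fin h → R ⧸ P) := Submodule.liftQ _ φ hφJ
  have hψ : ∀ x ∈ B.toSubmodule.map (Submodule.mkQ (J.restrictScalars R)), ψ x = 0 → x = 0 := by
    rintro _ ⟨b, hb, rfl⟩ hx
    have hx' : ∀ i, T (e i * b) ∈ P := by
      intro i
      have := congrFun hx i
      change Ideal.Quotient.mk P (T (e i * b)) = 0 at this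
      rwa [Ideal.Quotient.eq_zero_iff_mem] at this
    have hbb : ∀ b' ∈ B, T (b' * b) ∈ P := by
      intro b' hb'
      obtain ⟨r, hr, s, hs⟩ := hdep b' hb'
      have h1 : T ((algebraMap R A r * b' + ∑ i, algebraMap R A (s i) * e i) * b) ∈ P :=
        hT _ (J.mul_mem_right _ hs)
      have h2 : (algebraMap R A r * b' + ∑ i, algebraMap R A (s i) * e i) * b =
          r • (b' * b) + ∑ i, s i • (e i * b) := by
        rw [add_mul, Finset.sum_mul, Algebra.smul_def, mul_assoc]
        congr 1
        exact Finset.sum_congr rfl fun i _ => by rw [Algebra.smul_def, mul_assoc]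
      rw [h2, map_add, map_sum, map_smul] at h1
      have h3 : ∑ i, T (s i • (e i * b)) ∈ P := P.sum_mem fun i _ => by
        rw [map_smul]
        exact P.mul_mem_left _ (hx' i)
      have h4 := P.sub_mem h1 h3
      rw [add_sub_cancel_right, smul_eq_mul] at h4
      exact (hPp.mem_or_mem h4).resolve_left hr
    rw [← LinearMap.mem_ker, Submodule.ker_mkQ]
    refine hN b hb fun i hi => ?_
    obtain ⟨i, rfl⟩ : ∃ l, i = l + 1 := ⟨i - 1, by omega⟩
    rw [pow_succ]
    exact hbb _ (B.pow_mem hb i)
  -- noetherianity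
  have hnoethP : IsNoetherian R (R ⧸ P) := by
    refine ⟨fun N => ?_⟩
    let N' : Submodule (R ⧸ P) (R ⧸ P) :=
      { carrier := N
        add_mem' := fun ha hb => N.add_mem ha hb
        zero_mem' := N.zero_mem
        smul_mem' := by
          intro c x hx
          obtain ⟨c, rfl⟩ := Ideal.Quotient.mk_surjective c
          exact N.smul_mem c hx }
    have h1 : N'.FG := IsNoetherian.noetherian N'
    have h2 := Submodule.FG.restrictScalars_of_surjective h1
      (Ideal.Quotient.mk_surjective : Function.Surjective (algebraMap R (R ⧸ P)))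
    exact h2
  have h5 : IsNoetherian R (B.toSubmodule.map (Submodule.mkQ (J.restrictScalars R))) := by
    refine isNoetherian_of_injective (ψ.domRestrict _) ?_
    rw [← LinearMap.ker_eq_bot, LinearMap.ker_eq_bot']
    intro x hx
    exact Subtype.ext (hψ x.1 x.2 hx)
  exact (Submodule.fg_top _).1 (IsNoetherian.noetherian ⊤)

end Trace

end Pool.Agent.LUA
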